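import Pool.Agent.R937.PZ.Defs

/-!
# Schemes over finite fields generated by abelian varieties, with descent: definitions

`Homology Ω V`, `IsHomology`, `TB`, `IsTriple`, `IsSummandOf` are the ones of
`Pool/Agent/W495/FM/HomDefs.lean`.
-/

set_option autoImplicit false

namespace Pool.Agent.E8helper65.PG

open Pool.Agent.W495.TA Pool.Agent.W495.FM Module

section

variable {Ω : Type} [Field Ω] {V : Type}

/-- `X'` is the base change of `X` to the extension of degree `m` of the ground field: the motivic
homology groups of `X` are (by the injective pull-back `f`) the invariants in those of `X'` of the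
generator `σ` of the Galois group, an automorphism of order `m`; the `ℓ`-adic homology groups over
the algebraic closure agree (`β`), the Frobenius of `X'` is the power with exponent `m` of the one of
`X`, and `σ` acts on the classes of `X'` as the Frobenius of `X` does. -/
def IsBaseChange (T : Homology Ω V) (X X' : V) (m : ℕ) : Prop :=
  0 < m ∧ ∀ i j : ℤ, ∃ (f : T.M X i j → T.M X' i j) (σ : T.M X' i j → T.M X' i j)
    (β : T.E X i j → T.E X' i j),
    (IsAdd f ∧ Function.Injective f ∧ IsAdd σ ∧ IsLin Ω β ∧ Function.Bijective β) ∧
    (∀ x, T.reg X' i j (f x) = β (T.reg X i j x)) ∧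
    (∀ e, T.frob X' i j (β e) = β ((T.frob X i j)^[m] e)) ∧
    (∀ x e, T.reg X' i j x = β e → T.reg X' i j (σ x) = β (T.frob X i j e)) ∧
    (∀ x, σ^[m] x = x) ∧ ∀ x, σ x = x → ∃ y, f y = x

/-- The smallest class of schemes (over finite fields) that contains those with the property `S`, the
schemes whose motives are direct summands of finite sums of twists of motives of members, that
contains all of a closed subscheme `Z` of `X`, `X` and the complement `U` if it contains two of them,
and that contains `X` if it contains the base change of `X` to a finite extension of the ground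
field. -/
inductive GeneratedD (T : Homology Ω V) (S : V → Prop) : V → Prop
  | base (X : V) (h : S X) : GeneratedD T S X
  | summand {I : Type} [Fintype I] (X : V) (Y : I → V) (r : I → ℤ) (h : IsSummandOf T X Y r)
      (hY : ∀ l, GeneratedD T S (Y l)) : GeneratedD T S X
  | closed (Z X U : V) (h : IsTriple T Z X U) (hX : GeneratedD T S X) (hU : GeneratedD T S U) :
      GeneratedD T S Z
  | total (Z X U : V) (h : IsTriple T Z X U) (hZ : GeneratedD T S Z) (hU : GeneratedD T S U) :
      GeneratedD T S X
  | opened (Z X U : V) (h : IsTriple T Z X U) (hZ : GeneratedD T S Z) (hX : GeneratedD T S X) :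
      GeneratedD T S U
  | descent (X X' : V) (m : ℕ) (h : IsBaseChange T X X' m) (hX' : GeneratedD T S X') :
      GeneratedD T S X

end

end Pool.Agent.E8helper65.PG
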