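import Pool.Agent.E8helper65.PG.Defs
import Pool.Agent.R937.PZ.Mot

/-!
# Schemes over finite fields generated by abelian varieties, with descent
-/

set_option autoImplicit false

namespace Pool.Agent.E8helper65.PG

open Pool.Agent.W495.TA Pool.Agent.W495.FM Module

section

variable {Ω : Type} [Field Ω] {V : Type} {T : Homology Ω V}

theorem isAdd_zero {A B : Type} [AddCommGroup A] [AddCommGroup B] {f : A → B} (hf : IsAdd f) :
    f 0 = 0 := by
  have h1 := hf 0 0
  rw [add_zero] at h1
  exact left_eq_add.1 h1

theorem isAdd_sum {A B ι : Type} [AddCommGroup A] [AddCommGroup B] {f : A → B} (hf : IsAdd f)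
    (s : Finset ι) (x : ι → A) : f (∑ l ∈ s, x l) = ∑ l ∈ s, f (x l) := by
  classical
  induction s using Finset.induction_on with
  | empty => simpa using isAdd_zero hf
  | insert a s ha ih => rw [Finset.sum_insert ha, Finset.sum_insert ha, hf, ih]

/-- The conjecture descends along finite extensions of the ground field. -/
theorem tb_descent [CharZero Ω] (hT : IsHomology T) {X X' : V} {m : ℕ}
    (h : IsBaseChange T X X' m) (hX' : TB T X') : TB T X := by
  obtain ⟨hm, h⟩ := h
  intro i j
  obtain ⟨f, σ, β, ⟨hf, hfi, hσ, ⟨b, hb⟩, hβ⟩, hreg, hfrob, hσreg, hσm, hinv⟩ := h i j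
  obtain ⟨F, hF⟩ := hT.lin X i j
  obtain ⟨h1, h2, h3⟩ := hX' i j
  have hmΩ : (m : Ω) ≠ 0 := by exact_mod_cast hm.ne'
  have hbinj : Function.Injective b := fun x y hxy => hβ.1 (by rw [hb, hb, hxy])
  have hfrob' : ∀ e, T.frob X' i j (b e) = b ((F ^ m) e) := by
    intro e
    rw [← hb e, hfrob e, hb]
    congr 1
    have h4 : ∀ (l : ℕ) (e : T.E X i j), (T.frob X i j)^[l] e = (F ^ l) e := by
      intro l
      induction l with
      | zero => intro e; rfl
      | succ l ih =>
        intro e
        rw [Function.iterate_succ_apply, ih, hF, pow_succ, Module.End.mul_apply]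
    exact h4 m e
  have hFm : ∀ e, F e = e → (F ^ m) e = e := by
    intro e he
    have h4 : ∀ l : ℕ, (F ^ l) e = e := by
      intro l
      induction l with
      | zero => rfl
      | succ l ih => rw [pow_succ, Module.End.mul_apply, he, ih]
    exact h4 m
  refine ⟨fun e => ⟨fun he => ?_, fun he => ?_⟩, fun r x hx => ?_, fun e he => ?_⟩
  · -- the invariants are spanned by images
    rw [hF] at he
    have he' : T.frob X' i j (b e) = b e := by rw [hfrob', hFm e he]
    have h5 := (h1 _).1 he'
    -- averaging
    let S : Module.End Ω (T.E X i j) := ∑ t ∈ Finset.range m, F ^ t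
    have hSe : S e = (m : Ω) • e := by
      have h6 : ∀ l : ℕ, (F ^ l) e = e := by
        intro l
        induction l with
        | zero => rfl
        | succ l ih => rw [pow_succ, Module.End.mul_apply, he, ih]
      simp only [S, LinearMap.sum_apply, h6, Finset.sum_const, Finset.card_range]
      rw [← Nat.cast_smul_eq_nsmul Ω]
    have key : ∀ w, w ∈ Submodule.span Ω (Set.range (T.reg X' i j)) → ∀ e₀, b e₀ = w →
        S e₀ ∈ Submodule.span Ω (Set.range (T.reg X i j)) := by
      intro w hw
      induction hw using Submodule.span_induction with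
      | mem w hw =>
        obtain ⟨x, rfl⟩ := hw
        intro e₀ he₀
        have h6 : ∀ l : ℕ, T.reg X' i j (σ^[l] x) = b ((F ^ l) e₀) := by
          intro l
          induction l with
          | zero => exact he₀.symm
          | succ l ih =>
            rw [Function.iterate_succ_apply']
            have h7 := hσreg (σ^[l] x) ((F ^ l) e₀) (by rw [hb]; exact ih)
            rw [h7, hb, hF, pow_succ', Module.End.mul_apply]
        have h8 : σ (∑ t ∈ Finset.range m, σ^[t] x) = ∑ t ∈ Finset.range m, σ^[t] x := by
          rw [isAdd_sum hσ]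
          have h9 : ∀ t, σ (σ^[t] x) = σ^[t + 1] x := fun t =>
            (Function.iterate_succ_apply' σ t x).symm
          rw [Finset.sum_congr rfl fun t _ => h9 t]
          have h10 := Finset.sum_range_succ (fun t => σ^[t] x) m
          have h11 := Finset.sum_range_succ' (fun t => σ^[t] x) m
          rw [h10, hσm x] at h11
          have h12 : σ^[0] x = x := rfl
          rw [h12] at h11
          exact (add_right_cancel h11).symm
        obtain ⟨y, hy⟩ := hinv _ h8
        have h13 : b (S e₀) = b (T.reg X i j y) := by
          rw [← hb (T.reg X i j y), ← hreg y, hy, isAdd_sum (hT.add X' i j)]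
          simp only [S, LinearMap.sum_apply, map_sum]
          exact Finset.sum_congr rfl fun t _ => (h6 t).symm
        rw [hbinj h13]
        exact Submodule.subset_span ⟨y, rfl⟩
      | zero =>
        intro e₀ he₀
        have h6 : e₀ = 0 := hbinj (by rw [he₀, map_zero])
        rw [h6, map_zero]
        exact Submodule.zero_mem _
      | add w w' _ _ hw hw' =>
        intro e₀ he₀
        obtain ⟨e₁, he₁⟩ := hβ.2 w
        rw [hb] at he₁
        have h6 : b (e₀ - e₁) = w' := by rw [map_sub, he₀, he₁, add_sub_cancel_left]
        have h7 := Submodule.add_mem _ (hw e₁ he₁) (hw' (e₀ - e₁) h6)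
        rwa [map_sub, add_sub_cancel] at h7
      | smul c w _ hw =>
        intro e₀ he₀
        by_cases hc : c = 0
        · subst hc
          rw [zero_smul] at he₀
          have h6 : e₀ = 0 := hbinj (by rw [he₀, map_zero])
          rw [h6, map_zero]
          exact Submodule.zero_mem _
        · have h6 : b (c⁻¹ • e₀) = w := by
            rw [map_smul, he₀, smul_smul, inv_mul_cancel₀ hc, one_smul]
          have h7 := Submodule.smul_mem _ c (hw _ h6)
          rwa [map_smul, smul_smul, mul_inv_cancel₀ hc, one_smul] at h7
    have h6 := key _ h5 e rfl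
    rw [hSe] at h6
    have h7 := Submodule.smul_mem _ (m : Ω)⁻¹ h6
    rwa [smul_smul, inv_mul_cancel₀ hmΩ, one_smul] at h7
  · rw [hF]
    have h5 : Submodule.span Ω (Set.range (T.reg X i j)) ≤ LinearMap.ker (F - 1) := by
      refine Submodule.span_le.2 ?_
      rintro _ ⟨x, rfl⟩
      change _ ∈ LinearMap.ker (F - 1)
      rw [LinearMap.mem_ker, LinearMap.sub_apply, Module.End.one_apply, sub_eq_zero, ← hF]
      exact hT.frob_reg X i j x
    have h6 := h5 he
    rw [LinearMap.mem_ker, LinearMap.sub_apply, Module.End.one_apply, sub_eq_zero] at h6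
    exact h6
  · -- linear independence
    let g : T.M X i j →+ T.M X' i j :=
      { toFun := f
        map_zero' := isAdd_zero hf
        map_add' := hf }
    have hg : ∀ x, g x = f x := fun _ => rfl
    have hli : LinearIndependent ℚ fun k => f (x k) := by
      have h4 := hx.map' (g.toRatLinearMap) (LinearMap.ker_eq_bot.2 hfi)
      exact h4
    have h5 := h2 r _ hli
    have h6 : (fun k => T.reg X' i j (f (x k))) = ⇑b ∘ fun k => T.reg X i j (x k) := by
      funext k
      rw [hreg, hb]
      rfl
    rw [h6] at h5
    exact LinearIndependent.of_comp b h5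
  · -- semisimplicity
    simp only [hF] at he ⊢
    have hu : F (F e - e) = F e - e := he
    have h4 : ∀ l : ℕ, (F ^ l) e = e + (l : Ω) • (F e - e) := by
      intro l
      induction l with
      | zero => simp
      | succ l ih =>
        rw [pow_succ', Module.End.mul_apply, ih, map_add, map_smul, hu]
        push_cast
        rw [add_smul, one_smul]
        abel
    have h5 : T.frob X' i j (b e) - b e = b ((m : Ω) • (F e - e)) := by
      rw [hfrob', h4, map_add, add_sub_cancel_left]
    have h6 : T.frob X' i j (T.frob X' i j (b e) - b e) = T.frob X' i j (b e) - b e := by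
      rw [h5, hfrob', map_smul, hFm _ hu]
    have h7 := h3 _ h6
    rw [← sub_eq_zero, h5, ← map_zero b] at h7
    have h8 := hbinj h7
    exact sub_eq_zero.1 ((smul_eq_zero.1 h8).resolve_left hmΩ)

/-- The generated class, with descent. -/
theorem tb_generatedD [CharZero Ω] (hT : IsHomology T) {S : V → Prop}
    (hS : ∀ X, S X → TB T X) {X : V} (hX : GeneratedD T S X) : TB T X := by
  induction hX with
  | base X h => exact hS X h
  | summand X Y r h _ ih => exact tb_summand hT h ih
  | closed Z X U h _ _ hX hU => exact tb_closed hT h hX hU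
  | total Z X U h _ _ hZ hU => exact tb_total hT h hZ hU
  | opened Z X U h _ _ hZ hX => exact tb_opened hT h hZ hX
  | descent X X' m h _ hX' => exact tb_descent hT h hX'

end

variable {p : ℕ} [Fact p.Prime] {ν : PadicAlgCl p ≃+* ℂ} {Ω : Type} [Field Ω] [IsAlgClosed Ω]
  [CharZero Ω]

/-- **The conjecture of Tate and Beilinson for the class.** -/
theorem tb_goodD {V : Type} {T : Homology Ω V} (hT : IsHomology T) {X : V}
    (hX : GeneratedD T (R937.PG.IsGoodAbelianP p ν T) X) : TB T X := by
  refine tb_generatedD hT (fun X hX => ?_) hX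
  obtain ⟨Y, C, M, g, hY, hC, hM, hX⟩ := hX
  exact tb_abelian hT hC.isChow (R937.PG.tateHolds_goodP hY hC) hM hX

end Pool.Agent.E8helper65.PG
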