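import Pool.Agent.E8helper65.PG.Defs

/-!
# Motivic cohomology and algebraic K-theory of smooth projective schemes: definitions
-/

set_option autoImplicit false

namespace Pool.Agent.E8helper65.PG

open Pool.Agent.W495.FM

variable {Ω V : Type} [Field Ω]

/-- Every element has finite order. -/
def IsTorsion (A : Type) [AddCommGroup A] : Prop := ∀ x : A, ∃ N : ℕ, 0 < N ∧ N • x = 0

/-- `X` is smooth and projective: by the Weil conjectures (Deligne) the group `H_n(X, ℚ_ℓ(j))` is pure of
weight `2 j - n`, so that for `n ≠ 2 j` no element of it, except zero, is invariant under the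
Frobenius. -/
def IsPure (T : Homology Ω V) (X : V) : Prop :=
  ∀ n j : ℤ, n ≠ 2 * j → ∀ e : T.E X n j, T.frob X n j e = e → e = 0

/-- `H i n = H^i(X, ℤ(n)) = CH^n(X, 2 n - i)` are the motivic cohomology groups of the smooth projective
scheme `X` of pure dimension `d`: up to torsion the group `H^i(X, ℤ(n))` embeds into
`H_(2 d - i)^M(X, ℚ(d - n)) = H^i(X, ℚ(n))`. -/
def IsMotivicCohomology (T : Homology Ω V) (X : V) (d : ℤ) (H : ℤ → ℤ → Type)
    [∀ i n, AddCommGroup (H i n)] : Prop :=
  ∀ i n : ℤ, ∃ φ : H i n →+ T.M X (2 * d - i) (d - n),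
    ∀ x, φ x = 0 → ∃ N : ℕ, 0 < N ∧ N • x = 0

/-- The statement `P^n` for a scheme with the motivic cohomology groups `H i n = H^i(X, ℤ(n))`: all
groups `H^i(X, ℤ(n))` with `i ≠ 2 n` are torsion groups. -/
def P (H : ℤ → ℤ → Type) [∀ i n, AddCommGroup (H i n)] (n : ℤ) : Prop :=
  ∀ i : ℤ, i ≠ 2 * n → IsTorsion (H i n)

end Pool.Agent.E8helper65.PG
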